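import Pool.Agent.H772R2.NS.Pub

/-!
Public definitions: the part of one field orthogonal to another one.
-/

set_option autoImplicit false

open MeasureTheory Set
open scoped InnerProductSpace

namespace Pool.Agent.V1183.RA

open H772R2.NS.Pub

/-- `∫_Ω |v × w|²`, where `|v × w|² = |v|² |w|² - (v·w)²`. -/
noncomputable def crossSq {Ω : Set R3} (v w : L2 Ω R3) : ℝ :=
  ∫ x in Ω, (‖v.fn x‖ ^ 2 * ‖w.fn x‖ ^ 2 - ⟪v.fn x, w.fn x⟫_ℝ ^ 2)

/-- The length `|v × w| / |w|` of the component of `v(x)` orthogonal to `w(x)`; it is `0` at the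
points where `w(x) = 0`. -/
noncomputable def orth {Ω : Set R3} (v w : L2 Ω R3) (x : R3) : ℝ :=
  √(‖v.fn x‖ ^ 2 * ‖w.fn x‖ ^ 2 - ⟪v.fn x, w.fn x⟫_ℝ ^ 2) / ‖w.fn x‖

end Pool.Agent.V1183.RA
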