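import Pool.Agent.V1183.RA.Low
import Pool.Agent.V1183.RA.PubDef
import Pool.Agent.W795.TQ.DPub

/-!
The criterion in terms of the component of the velocity orthogonal to its time derivative.
-/

set_option autoImplicit false
set_option linter.unusedSectionVars false

open MeasureTheory Set Filter Topology
open scoped InnerProductSpace ENNReal ContDiff NNReal

namespace Pool.Agent.V1183.RA

open H772R2.NS H772R2.NS.Pub H772R2.NSR H772R2.NSG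
open Pool.Agent.W795.TQ Pool.Agent.Y303.RA Pool.Agent.TH301.EQ

/-- the alternative -/
theorem alt_mid (hit : S_iter) (hode : S_ode) (htp : S_dtp) (he1 : S_est1) (he2 : S_est2)
    (hloc : S_loc) (huni : S_uni) (hun : S_univ) : ∃ κ : ℝ, 0 < κ ∧
    ∀ (Ω : Set E3), IsOpen Ω → Bornology.IsBounded Ω → ∀ (ν T : ℝ), 0 < ν → 0 < T →
    ∀ (F F' : ℝ → L2M Ω), MemLp F' 2 (volume.restrict (Ioc 0 T)) →
    (∀ a b, 0 ≤ a → a ≤ b → b ≤ T → F b - F a = ∫ s in a..b, F' s) →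
    ∀ (u : ℝ → L2V Ω) (z : ℝ → L2M Ω), AEStronglyMeasurable u (volume.restrict (Ioc 0 T)) →
    (∀ᵐ t ∂(volume.restrict (Ioc 0 T)), (u t, z t) ∈ graphW Ω) →
    MemLp z 2 (volume.restrict (Ioc 0 T)) →
    (∀ φ : E3 → E3, H772R2.NS.IsTest Ω φ → ∀ t ∈ Icc 0 T,
      (∫ x in (show Set R3 from Ω), ⟪L2.fn (Ω := Ω) (E := R3) (u t) x, (φ : R3 → R3) x⟫_ℝ)
        - (∫ x in (show Set R3 from Ω), ⟪L2.fn (Ω := Ω) (E := R3) (u 0) x, (φ : R3 → R3) x⟫_ℝ)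
      = ∫ s in (0 : ℝ)..t, Pub.rhs (Ω := Ω) ν (u s) (z s) (F s) φ) →
    (∀ t ∈ Icc 0 T, ‖u t‖ ^ 2 / 2 + ν * (∫ s in (0 : ℝ)..t, ‖z s‖ ^ 2)
      ≤ ‖u 0‖ ^ 2 / 2 + ∫ s in (0 : ℝ)..t, ⟪F s, z s⟫_ℝ) →
    ∀ z0 : L2M Ω, (u 0, z0) ∈ graphW Ω →
    (∃ h : L2V Ω, ∀ φ : E3 → E3, H772R2.NS.IsTest Ω φ →
      Pub.rhs (Ω := Ω) ν (u 0) z0 (F 0) φ
        = ∫ x in (show Set R3 from Ω), ⟪L2.fn (Ω := Ω) (E := R3) h x, (φ : R3 → R3) x⟫_ℝ) →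
    (∃ u' G1 G', IsStrong (show Set R3 from Ω) ν T F u u' G1 G') ∨
    ∃ τ ∈ Ioc 0 T, ∃ (u1 : ℝ → L2V Ω) (y y1 : ℝ → L2M Ω),
      (∀ t ∈ Ioo 0 τ, Str (graphW Ω) (tensL (Ω := Ω)) ν t F u u1 y y1) ∧
      ∀ t0 < τ, ¬ ∀ᵐ t ∂(volume.restrict (Ioo t0 τ)),
        ‖u1 t‖ ≤ κ * ν ^ (5 / 4 : ℝ) * (τ - t) ^ (-(3 / 4) : ℝ) := by
  obtain ⟨c, hc, hU⟩ := hun
  obtain ⟨κ, hκ, hrate⟩ := rate hit hode htp he1 he2 hloc huni c hc
  refine ⟨κ, hκ, ?_⟩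
  intro Ω hΩ hb ν T hν hT F F' hF1 hF u z hmeas hmem hz2 heqn hen z0 h0 hg
  obtain ⟨C, Fr⟩ := exists_frame hΩ hb
  obtain ⟨g0, hg0⟩ := hg
  have hm : MeasurableSet Ω := hΩ.measurableSet
  have hcomp : ∀ p ∈ graphW Ω, ⟪F 0 - ν • z0 + tensL (u 0), p.2⟫_ℝ = ⟪g0, p.1⟫_ℝ := by
    refine compat_ext ?_
    rintro p ⟨φ, k1, k2, k3⟩
    rw [← pub_rhs hm ν (F 0) h0 k3, ← pub_inner (Ω := Ω) g0 k2]
    exact hg0 φ k1
  have hFc : ContinuousOn F (Icc 0 T) := prim_cont hF1 hF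
  have hLH := lh_mid hΩ hFc Fr hmeas hmem hz2 heqn hen
  rcases hrate (L2V Ω) (L2M Ω) (graphW Ω) tensL C ν T F F' (u 0) g0 z0 u z Fr (hU _ hΩ)
    (rellich_W hΩ hb) hν hT ⟨hF1, hF⟩ h0 hcomp hLH with
    ⟨w, w1, y, y1, k1, k2⟩ | ⟨τ, hτ, k1, -, k3⟩
  · exact Or.inl ⟨w1, y, y1, strong_of_str hΩ hT k1 k2⟩
  exact Or.inr ⟨τ, hτ, deriv u, gz (graphW Ω) u, deriv (gz (graphW Ω) u), k1, k3⟩

variable {Ω : Set E3}

theorem ms (h : IsOpen Ω) : MeasurableSet Ω := h.measurableSet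

theorem crossSq_eq (v w : L2V Ω) : crossSq (Ω := (show Set R3 from Ω)) v w = crs v w := rfl

theorem orth_meas (v w : L2V Ω) :
    AEStronglyMeasurable (fun x : E3 => orth (Ω := (show Set R3 from Ω)) v w x)
      (volume.restrict Ω) := by
  have h1 : AEStronglyMeasurable (fun x : E3 => v x) (volume.restrict Ω) :=
    Lp.aestronglyMeasurable v
  have h2 : AEStronglyMeasurable (fun x : E3 => w x) (volume.restrict Ω) :=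
    Lp.aestronglyMeasurable w
  have h3 : AEStronglyMeasurable
      (fun x : E3 => √(‖v x‖ ^ 2 * ‖w x‖ ^ 2 - ⟪v x, w x⟫_ℝ ^ 2) / ‖w x‖)
      (volume.restrict Ω) := by
    have h4 : AEStronglyMeasurable (fun x : E3 => ‖v x‖ ^ 2 * ‖w x‖ ^ 2 - ⟪v x, w x⟫_ℝ ^ 2)
        (volume.restrict Ω) :=
      ((h1.norm.pow 2).mul (h2.norm.pow 2)).sub ((h1.inner h2).pow 2)
    exact ((Real.continuous_sqrt.comp_aestronglyMeasurable h4).aemeasurable.div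
      h2.norm.aemeasurable).aestronglyMeasurable
  exact h3

theorem orth_le (v w : L2V Ω) (x : E3) : ‖v x‖ ^ 2 * ‖w x‖ ^ 2 - ⟪v x, w x⟫_ℝ ^ 2
    ≤ (orth (Ω := (show Set R3 from Ω)) v w x) ^ 2 * ‖w x‖ ^ 2 := by
  have h0 : 0 ≤ ‖v x‖ ^ 2 * ‖w x‖ ^ 2 - ⟪v x, w x⟫_ℝ ^ 2 := by
    have := real_inner_mul_inner_self_le (v x) (w x)
    rw [real_inner_self_eq_norm_sq, real_inner_self_eq_norm_sq] at this
    nlinarith
  have e : orth (Ω := (show Set R3 from Ω)) v w x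
      = √(‖v x‖ ^ 2 * ‖w x‖ ^ 2 - ⟪v x, w x⟫_ℝ ^ 2) / ‖w x‖ := rfl
  rw [e, div_pow, Real.sq_sqrt h0]
  rcases eq_or_ne (w x) 0 with h | h
  · rw [h]
    simp
  · have : 0 < ‖w x‖ := norm_pos_iff.2 h
    rw [div_mul_cancel₀ _ (by positivity)]

/-- bound by the `L^q` norm of the orthogonal part -/
theorem crs_orth (hΩ : MeasurableSet Ω) {u : L2V Ω} {p : L2V Ω × L2M Ω} (hp : p ∈ graphW Ω)
    {q : ℝ≥0∞} {θ B : ℝ} (hq : 3 ≤ q) (hθ : θ = (3 / q).toReal) (hθ1 : θ ≤ 1) (hB : 0 ≤ B)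
    (hB' : eLpNorm (fun x : E3 => orth (Ω := (show Set R3 from Ω)) u p.1 x) q
      (volume.restrict Ω) ≤ ENNReal.ofReal B) :
    crs u p.1 ≤ (B * (‖p.1‖ ^ (1 - θ) * ((CS : ℝ) * ‖p.2‖) ^ θ)) ^ 2 :=
  crs_prod hΩ hp (orth_meas u p.1) hq hθ hθ1 hB hB' (Eventually.of_forall fun x => orth_le u p.1 x)

section sing

variable {C ν T τ κ : ℝ} {F F1 : ℝ → L2M Ω} {v v1 : ℝ → L2V Ω} {z z1 : ℝ → L2M Ω}

theorem mem1_ae (hτ : 0 < τ) (hS : ∀ t ∈ Ioo 0 τ, Str (graphW Ω) (tensL (Ω := Ω)) ν t F v v1 z z1) :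
    ∀ᵐ t ∂(volume.restrict (Ioo 0 τ)), (v1 t, z1 t) ∈ graphW Ω := by
  have h1 : ∀ n : ℕ, ∃ t, t ∈ Ioo 0 τ ∧ τ - 1 / ((n : ℝ) + 1) < t := fun n => by
    have hn : (0 : ℝ) < 1 / ((n : ℝ) + 1) := by positivity
    obtain ⟨t, ht1, ht2⟩ := exists_between
      (max_lt (by linarith : τ - 1 / ((n : ℝ) + 1) < τ) hτ)
    exact ⟨t, ⟨(le_max_right _ _).trans_lt ht1, ht2⟩, (le_max_left _ _).trans_lt ht1⟩
  choose t ht1 ht2 using h1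
  have hsub : Ioo 0 τ ⊆ ⋃ n, Ioc 0 (t n) := by
    intro s hs
    obtain ⟨n, hn⟩ := exists_nat_one_div_lt (show 0 < τ - s by linarith [hs.2])
    exact mem_iUnion.2 ⟨n, hs.1, by linarith [ht2 n]⟩
  refine ae_mono (Measure.restrict_mono hsub le_rfl) ?_
  refine (ae_restrict_iUnion_iff (fun n => Ioc 0 (t n)) (fun s => (v1 s, z1 s) ∈ graphW Ω)).2 ?_
  intro n
  exact (hS _ (ht1 n)).mem1

/-- the form-bounded criterion -/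
theorem low_form (hΩ : MeasurableSet Ω) (Fr : Frame (graphW Ω) (tensL (Ω := Ω)) C) (hν : 0 < ν)
    (hτT : τ ≤ T) (hF : FH T F F1)
    (hS : ∀ t ∈ Ioo 0 τ, Str (graphW Ω) (tensL (Ω := Ω)) ν t F v v1 z z1) (hκ : 0 < κ)
    (hrate : ∀ t0 < τ, ¬ ∀ᵐ t ∂(volume.restrict (Ioo t0 τ)),
      ‖v1 t‖ ≤ κ * (τ - t) ^ (-(3 / 4) : ℝ)) {s : ℝ} (hs : s ∈ Ico 0 τ) {δ : ℝ} (hδ : 0 < δ)
    (hδ1 : δ ≤ 1) :
    ∃ M : ℝ, ∀ lam : ℝ → ℝ, (∀ t, 0 ≤ lam t) → (∀ t ∈ Ioo s τ, IntegrableOn lam (Ioc s t)) →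
      (∀ᵐ t ∂(volume.restrict (Ioo s τ)),
        crs (v t) (v1 t) ≤ ((1 - δ) * ν * ‖z1 t‖) ^ 2 + lam t * ‖v1 t‖ ^ 2) →
      ∀ t0 < τ, ∃ t ∈ Ioo t0 τ, s < t ∧
        3 / 2 * δ * ν * Real.log (1 / (τ - t)) - M ≤ ∫ r in s..t, lam r := by
  obtain ⟨M, hM⟩ := low_Λ Fr (hom_tensL hΩ) hν hτT hF hS hκ hrate hs (half_pos hδ)
  refine ⟨2 * δ * ν * M, ?_⟩
  intro lam h0 hi hc t0 ht0
  have hss : Ioo s τ ⊆ Ioo 0 τ := Ioo_subset_Ioo_left hs.1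
  obtain ⟨t, ht, hst, hl⟩ := hM (fun t => lam t / (2 * δ * ν)) (fun t => by
    have := h0 t
    positivity) (fun t ht => (hi t ht).div_const _) (by
    filter_upwards [hc, ae_mono (Measure.restrict_mono hss le_rfl)
      (mem1_ae (hs.1.trans_lt hs.2) hS), ae_restrict_mem measurableSet_Ioo] with t h1 h2 h3
    have h3' := hss h3
    obtain ⟨t', ht'⟩ : ∃ t', t < t' ∧ t' < τ := exists_between h3.2
    have S := hS t' ⟨h3'.1.trans ht'.1, ht'.2⟩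
    have hmem := S.mem t ⟨h3'.1.le, ht'.1.le⟩
    have k1 := tri_le (p := (v1 t, z1 t)) (q := (v t, z t)) hΩ h2 hmem
    have hz : 0 ≤ ‖z1 t‖ := norm_nonneg _
    have hv : 0 ≤ ‖v1 t‖ := norm_nonneg _
    have hl := h0 t
    have h1δ : 0 ≤ 1 - δ := by linarith
    have k2 : √(crs (v t) (v1 t)) ≤ (1 - δ) * ν * ‖z1 t‖ + √(lam t) * ‖v1 t‖ := by
      refine Real.sqrt_le_iff.2 ⟨by positivity, h1.trans ?_⟩
      have e : lam t * ‖v1 t‖ ^ 2 = (√(lam t) * ‖v1 t‖) ^ 2 := by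
        rw [mul_pow, Real.sq_sqrt hl]
      rw [e]
      have : 0 ≤ (1 - δ) * ν * ‖z1 t‖ * (√(lam t) * ‖v1 t‖) := by positivity
      nlinarith
    have k3 : ‖z1 t‖ * √(crs (v t) (v1 t))
        ≤ ‖z1 t‖ * ((1 - δ) * ν * ‖z1 t‖ + √(lam t) * ‖v1 t‖) := by gcongr
    have k4 : ‖z1 t‖ * (√(lam t) * ‖v1 t‖)
        ≤ δ / 2 * ν * ‖z1 t‖ ^ 2 + lam t / (2 * δ * ν) * ‖v1 t‖ ^ 2 := by
      have e : lam t / (2 * δ * ν) * ‖v1 t‖ ^ 2 = (√(lam t) * ‖v1 t‖) ^ 2 / (2 * δ * ν) := by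
        rw [mul_pow, Real.sq_sqrt hl]
        ring
      rw [e]
      have k5 : 0 ≤ (δ * ν * ‖z1 t‖ - √(lam t) * ‖v1 t‖) ^ 2 / (2 * δ * ν) := by positivity
      have k6 : (δ * ν * ‖z1 t‖ - √(lam t) * ‖v1 t‖) ^ 2 / (2 * δ * ν)
          = δ / 2 * ν * ‖z1 t‖ ^ 2 - ‖z1 t‖ * (√(lam t) * ‖v1 t‖)
            + (√(lam t) * ‖v1 t‖) ^ 2 / (2 * δ * ν) := by
        field_simp
        ring
      linarith
    have k7 : -⟪tensL (v1 t), z t⟫_ℝ ≤ ‖z1 t‖ * √(crs (v t) (v1 t)) := k1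
    nlinarith) t0 ht0
  refine ⟨t, ht, hst, ?_⟩
  rw [intervalIntegral.integral_div, le_div_iff₀ (by positivity)] at hl
  calc _ = (3 / 4 * Real.log (1 / (τ - t)) - M) * (2 * δ * ν) := by ring
    _ ≤ _ := hl

/-- the criterion in `L^q` -/
theorem low_q (hΩ : MeasurableSet Ω) (Fr : Frame (graphW Ω) (tensL (Ω := Ω)) C) (hν : 0 < ν)
    (hτT : τ ≤ T) (hF : FH T F F1)
    (hS : ∀ t ∈ Ioo 0 τ, Str (graphW Ω) (tensL (Ω := Ω)) ν t F v v1 z z1) (hκ : 0 < κ)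
    (hrate : ∀ t0 < τ, ¬ ∀ᵐ t ∂(volume.restrict (Ioo t0 τ)),
      ‖v1 t‖ ≤ κ * (τ - t) ^ (-(3 / 4) : ℝ)) {s : ℝ} (hs : s ∈ Ico 0 τ) {q : ℝ≥0∞} {θ c : ℝ}
    (hq : 3 ≤ q) (hθ : θ = (3 / q).toReal) (hθ1 : θ < 1)
    (hc : c = 3 / 4 / ((((CS : ℝ) + 1) ^ θ) ^ (2 / (1 - θ)) * 2 ^ (2 / (1 - θ) - 1))) :
    ∃ M : ℝ, ∀ B : ℝ → ℝ, (∀ t, 0 ≤ B t) →
      (∀ t ∈ Ioo s τ, IntegrableOn (fun r => B r ^ (2 / (1 - θ))) (Ioc s t)) →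
      (∀ᵐ t ∂(volume.restrict (Ioo s τ)),
        eLpNorm (fun x : E3 => orth (Ω := (show Set R3 from Ω)) (v t) (v1 t) x) q
          (volume.restrict Ω) ≤ ENNReal.ofReal (B t)) →
      ∀ t0 < τ, ∃ t ∈ Ioo t0 τ, s < t ∧
        c * ν ^ (2 / (1 - θ) - 1) * Real.log (1 / (τ - t)) - M
          ≤ ∫ r in s..t, B r ^ (2 / (1 - θ)) := by
  have hθ0 : 0 ≤ θ := by rw [hθ]; exact ENNReal.toReal_nonneg
  have h1θ : 0 < 1 - θ := by linarith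
  have hCS : (0 : ℝ) ≤ (CS : ℝ) := NNReal.coe_nonneg _
  set A : ℝ := (((CS : ℝ) + 1) ^ θ) ^ (2 / (1 - θ)) * (2 / ν) ^ (2 / (1 - θ) - 1) with hA
  have hA0 : 0 < A := by positivity
  obtain ⟨M, hM⟩ := low_Λ Fr (hom_tensL hΩ) hν hτT hF hS hκ hrate hs (δ := 1 / 2) (by norm_num)
  refine ⟨M / A, ?_⟩
  intro B h0 hi hc' t0 ht0
  have hss : Ioo s τ ⊆ Ioo 0 τ := Ioo_subset_Ioo_left hs.1
  obtain ⟨t, ht, hst, hl⟩ := hM (fun t => A * B t ^ (2 / (1 - θ))) (fun t => by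
    have := h0 t
    positivity) (fun t ht => (hi t ht).const_mul _) (by
    filter_upwards [hc', ae_mono (Measure.restrict_mono hss le_rfl)
      (mem1_ae (hs.1.trans_lt hs.2) hS), ae_restrict_mem measurableSet_Ioo] with t h1 h2 h3
    have h3' := hss h3
    obtain ⟨t', ht'⟩ : ∃ t', t < t' ∧ t' < τ := exists_between h3.2
    have S := hS t' ⟨h3'.1.trans ht'.1, ht'.2⟩
    have hmem := S.mem t ⟨h3'.1.le, ht'.1.le⟩
    have k1' := tri_le (p := (v1 t, z1 t)) (q := (v t, z t)) hΩ h2 hmem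
    have k1 : -⟪tensL (v1 t), z t⟫_ℝ ≤ ‖z1 t‖ * √(crs (v t) (v1 t)) := k1'
    have k2 := crs_orth (u := v t) (p := (v1 t, z1 t)) hΩ h2 hq hθ hθ1.le (h0 t) h1
    have hz : 0 ≤ ‖z1 t‖ := norm_nonneg _
    have hv : 0 ≤ ‖v1 t‖ := norm_nonneg _
    have hB := h0 t
    have k3 : √(crs (v t) (v1 t)) ≤ B t * (‖v1 t‖ ^ (1 - θ) * ((CS : ℝ) * ‖z1 t‖) ^ θ) :=
      Real.sqrt_le_iff.2 ⟨by positivity, k2⟩
    have k4 : ((CS : ℝ) * ‖z1 t‖) ^ θ ≤ ((CS : ℝ) + 1) ^ θ * ‖z1 t‖ ^ θ := by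
      rw [Real.mul_rpow hCS hz]
      gcongr
      linarith
    have k5 : ‖z1 t‖ * √(crs (v t) (v1 t))
        ≤ (B t * ((CS : ℝ) + 1) ^ θ) * (‖z1 t‖ ^ (1 + θ) * ‖v1 t‖ ^ (1 - θ)) := by
      have e : ‖z1 t‖ ^ (1 + θ) = ‖z1 t‖ * ‖z1 t‖ ^ θ := by
        rw [Real.rpow_one_add' hz (by positivity)]
      rw [e]
      calc ‖z1 t‖ * √(crs (v t) (v1 t))
          ≤ ‖z1 t‖ * (B t * (‖v1 t‖ ^ (1 - θ) * (((CS : ℝ) + 1) ^ θ * ‖z1 t‖ ^ θ))) := by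
            refine mul_le_mul_of_nonneg_left (k3.trans ?_) hz
            gcongr
        _ = _ := by ring
    have k6 := young_mix (b := B t * ((CS : ℝ) + 1) ^ θ) (by positivity) hz hv hν hθ0 hθ1
    have e2 : (B t * ((CS : ℝ) + 1) ^ θ) ^ (2 / (1 - θ)) * (2 / ν) ^ (2 / (1 - θ) - 1)
        = A * B t ^ (2 / (1 - θ)) := by
      rw [Real.mul_rpow hB (by positivity), hA]
      ring
    rw [e2] at k6
    have k8 : (1 - 1 / 2) * ν * ‖z1 t‖ ^ 2 = ν / 2 * ‖z1 t‖ ^ 2 := by ring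
    rw [k8]
    linarith) t0 ht0
  refine ⟨t, ht, hst, ?_⟩
  rw [intervalIntegral.integral_const_mul] at hl
  have e1 : c * ν ^ (2 / (1 - θ) - 1) = 3 / 4 / A := by
    have e3 : (2 / ν) ^ (2 / (1 - θ) - 1) = 2 ^ (2 / (1 - θ) - 1) / ν ^ (2 / (1 - θ) - 1) :=
      Real.div_rpow (by norm_num) hν.le _
    have hν' : 0 < ν ^ (2 / (1 - θ) - 1) := Real.rpow_pos_of_pos hν _
    rw [hc, hA, e3]
    field_simp
  rw [e1]
  have : 3 / 4 / A * Real.log (1 / (τ - t)) - M / A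
      = (3 / 4 * Real.log (1 / (τ - t)) - M) / A := by ring
  rw [this, div_le_iff₀ hA0]
  linarith

/-- smallness in `L³` -/
theorem low_3 (hΩ : MeasurableSet Ω) (Fr : Frame (graphW Ω) (tensL (Ω := Ω)) C) (hν : 0 < ν)
    (hτT : τ ≤ T) (hF : FH T F F1)
    (hS : ∀ t ∈ Ioo 0 τ, Str (graphW Ω) (tensL (Ω := Ω)) ν t F v v1 z z1) (hκ : 0 < κ)
    (hrate : ∀ t0 < τ, ¬ ∀ᵐ t ∂(volume.restrict (Ioo t0 τ)),
      ‖v1 t‖ ≤ κ * (τ - t) ^ (-(3 / 4) : ℝ)) {s : ℝ} (hs : s ∈ Ico 0 τ) :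
    ¬ ∀ᵐ t ∂(volume.restrict (Ioo s τ)),
        eLpNorm (fun x : E3 => orth (Ω := (show Set R3 from Ω)) (v t) (v1 t) x) 3
          (volume.restrict Ω) ≤ ENNReal.ofReal (1 / (2 * ((CS : ℝ) + 1)) * ν) := by
  intro hc'
  have hCS : (0 : ℝ) ≤ (CS : ℝ) := NNReal.coe_nonneg _
  obtain ⟨M, hM⟩ := low_Λ Fr (hom_tensL hΩ) hν hτT hF hS hκ hrate hs (δ := 1 / 2) (by norm_num)
  have hss : Ioo s τ ⊆ Ioo 0 τ := Ioo_subset_Ioo_left hs.1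
  have hconc := hM (fun _ => 0) (fun _ => le_rfl) (fun t _ => by simp) (by
    filter_upwards [hc', ae_mono (Measure.restrict_mono hss le_rfl)
      (mem1_ae (hs.1.trans_lt hs.2) hS), ae_restrict_mem measurableSet_Ioo] with t h1 h2 h3
    have h3' := hss h3
    obtain ⟨t', ht'⟩ : ∃ t', t < t' ∧ t' < τ := exists_between h3.2
    have S := hS t' ⟨h3'.1.trans ht'.1, ht'.2⟩
    have hmem := S.mem t ⟨h3'.1.le, ht'.1.le⟩
    have k1' := tri_le (p := (v1 t, z1 t)) (q := (v t, z t)) hΩ h2 hmem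
    have k1 : -⟪tensL (v1 t), z t⟫_ℝ ≤ ‖z1 t‖ * √(crs (v t) (v1 t)) := k1'
    have h33 : (3 / 3 : ℝ≥0∞) = 1 := ENNReal.div_self (by norm_num) (by norm_num)
    have k2 := crs_orth (u := v t) (p := (v1 t, z1 t)) (q := 3) (θ := 1) hΩ h2 le_rfl
      (by rw [h33]; rfl) le_rfl (by positivity) h1
    have hz : 0 ≤ ‖z1 t‖ := norm_nonneg _
    have e0 : (1 - (1 : ℝ)) = 0 := by norm_num
    rw [e0, Real.rpow_zero, one_mul, Real.rpow_one] at k2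
    have k3 : √(crs (v t) (v1 t)) ≤ 1 / (2 * ((CS : ℝ) + 1)) * ν * ((CS : ℝ) * ‖z1 t‖) :=
      Real.sqrt_le_iff.2 ⟨by positivity, k2⟩
    have k4 : 1 / (2 * ((CS : ℝ) + 1)) * ν * ((CS : ℝ) * ‖z1 t‖) ≤ ν / 2 * ‖z1 t‖ := by
      have : 1 / (2 * ((CS : ℝ) + 1)) * ν * ((CS : ℝ) * ‖z1 t‖)
          = ν / 2 * ‖z1 t‖ * ((CS : ℝ) / ((CS : ℝ) + 1)) := by
        field_simp
      rw [this]
      have h5 : (CS : ℝ) / ((CS : ℝ) + 1) ≤ 1 := by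
        rw [div_le_one (by positivity)]
        linarith
      exact mul_le_of_le_one_right (by positivity) h5
    have k5 : ‖z1 t‖ * √(crs (v t) (v1 t)) ≤ ‖z1 t‖ * (ν / 2 * ‖z1 t‖) :=
      mul_le_mul_of_nonneg_left (k3.trans k4) hz
    nlinarith)
  set ε : ℝ := Real.exp (-(4 / 3 * (M + 1))) with hε
  have hε0 : 0 < ε := Real.exp_pos _
  obtain ⟨t, ht, -, h5⟩ := hconc (τ - ε) (by linarith)
  have hp : 0 < τ - t := by linarith [ht.2]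
  have h6 : τ - t < ε := by linarith [ht.1]
  have h7 : Real.log (τ - t) < -(4 / 3 * (M + 1)) := by
    rw [Real.log_lt_iff_lt_exp hp]
    exact h6
  rw [intervalIntegral.integral_zero, one_div, Real.log_inv] at h5
  linarith

/-- the lower bound of `∫ |u × ∂ₜu|²` -/
theorem low_cross (hΩ : MeasurableSet Ω) (Fr : Frame (graphW Ω) (tensL (Ω := Ω)) C) (hν : 0 < ν)
    (hτT : τ ≤ T) (hF : FH T F F1)
    (hS : ∀ t ∈ Ioo 0 τ, Str (graphW Ω) (tensL (Ω := Ω)) ν t F v v1 z z1) (hκ : 0 < κ)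
    (hrate : ∀ t0 < τ, ¬ ∀ᵐ t ∂(volume.restrict (Ioo t0 τ)),
      ‖v1 t‖ ≤ κ * (τ - t) ^ (-(3 / 4) : ℝ)) {s : ℝ} (hs : s ∈ Ico 0 τ) :
    (∀ t ∈ Ioo s τ, IntegrableOn (fun r => crs (v r) (v1 r)) (Ioc s t)) ∧
    ∃ M : ℝ, ∀ t0 < τ, ∃ t ∈ Ioo t0 τ, s < t ∧
        ν * κ ^ 2 * (τ - t) ^ (-(3 / 2) : ℝ) - M ≤ ∫ r in s..t, crs (v r) (v1 r) := by
  have hss : Ioo s τ ⊆ Ioo 0 τ := Ioo_subset_Ioo_left hs.1
  have hi : ∀ t ∈ Ioo s τ, IntegrableOn (fun r => crs (v r) (v1 r)) (Ioc s t) := by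
    intro t ht
    have S := hS t (hss ht)
    have ht0 : 0 < t := (hss ht).1
    have hzc : ContinuousOn z (Icc 0 t) := prim_cont S.z1m S.pz
    have hvc : ContinuousOn v (Icc 0 t) := prim_cont S.u1m S.pu
    obtain ⟨N, hN⟩ := isCompact_Icc.exists_bound_of_continuousOn hzc
    have hmeas : AEStronglyMeasurable (fun r => crs (v r) (v1 r)) (volume.restrict (Ioc 0 t)) := by
      refine crs_meas hΩ ((hvc.mono Ioc_subset_Icc_self).aestronglyMeasurable measurableSet_Ioc)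
        ((hzc.mono Ioc_subset_Icc_self).aestronglyMeasurable measurableSet_Ioc) ?_
        S.u1m.aestronglyMeasurable S.z1m.aestronglyMeasurable S.mem1
      filter_upwards [ae_restrict_mem measurableSet_Ioc] with r hr
      exact S.mem r ⟨hr.1.le, hr.2⟩
    have hzn : Integrable (fun r => ‖z1 r‖ ^ 2) (volume.restrict (Ioc 0 t)) :=
      (memLp_two_iff_integrable_sq_norm S.z1m.aestronglyMeasurable).mp S.z1m
    have h1 : Integrable (fun r => crs (v r) (v1 r)) (volume.restrict (Ioc 0 t)) := by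
      refine (hzn.const_mul (2 * C ^ 2 * N ^ 2)).mono' hmeas ?_
      filter_upwards [S.mem1, ae_restrict_mem measurableSet_Ioc] with r h2 hr
      have hr' : r ∈ Icc 0 t := ⟨hr.1.le, hr.2⟩
      have h3 := crs_le hΩ Fr (S.mem r hr') h2
      rw [Real.norm_of_nonneg (crs_nonneg _ _)]
      refine h3.trans ?_
      have h4 : ‖z r‖ ^ 2 ≤ N ^ 2 := pow_le_pow_left₀ (norm_nonneg _) (hN r hr') 2
      have : 2 * C ^ 2 * (‖z r‖ ^ 2 * ‖z1 r‖ ^ 2) ≤ 2 * C ^ 2 * (N ^ 2 * ‖z1 r‖ ^ 2) := by gcongr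
      calc _ ≤ _ := this
        _ = _ := by ring
    exact h1.mono_measure (Measure.restrict_mono (Ioc_subset_Ioc_left hs.1) le_rfl)
  refine ⟨hi, ?_⟩
  refine low_X (X := fun t => crs (v t) (v1 t)) Fr (hom_tensL hΩ) hν hτT hF hS hκ hrate hs
    (fun t => crs_nonneg (v t) (v1 t)) hi ?_
  filter_upwards [ae_mono (Measure.restrict_mono hss le_rfl)
      (mem1_ae (hs.1.trans_lt hs.2) hS), ae_restrict_mem measurableSet_Ioo] with t h2 h3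
  have h3' := hss h3
  obtain ⟨t', ht'⟩ : ∃ t', t < t' ∧ t' < τ := exists_between h3.2
  have S := hS t' ⟨h3'.1.trans ht'.1, ht'.2⟩
  have hmem := S.mem t ⟨h3'.1.le, ht'.1.le⟩
  have k1 := tri_le (p := (v1 t, z1 t)) (q := (v t, z t)) hΩ h2 hmem
  exact k1

end sing

end Pool.Agent.V1183.RA
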