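import Pool.Agent.Y303.RA.Rate
import Pool.Agent.Y303.RA.Conc

/-!
Lower bounds near a first singular time in terms of the quadratic term for the time derivative.
-/

set_option autoImplicit false
set_option linter.unusedSectionVars false

open MeasureTheory Set Filter Topology
open scoped InnerProductSpace ENNReal

namespace Pool.Agent.V1183.RA

open Pool.Agent.W795.TQ Pool.Agent.Y303.RA
open H772R2.NSR (Frame prim_cont memLp_ii ae_deriv_of_prim)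

/-- from the rate to the logarithmic lower bound -/
theorem log_low {E : Type} [NormedAddCommGroup E] {v1 : ℝ → E} {τ r κ K : ℝ} {Λ : ℝ → ℝ}
    (hκ : 0 < κ) (hK : 0 < K) (hr : r < τ)
    (hrate : ∀ t0 < τ, ¬ ∀ᵐ t ∂(volume.restrict (Ioo t0 τ)),
      ‖v1 t‖ ≤ κ * (τ - t) ^ (-(3 / 4) : ℝ))
    (hb : ∀ᵐ t ∂(volume.restrict (Ioo r τ)), ‖v1 t‖ ^ 2 ≤ K * Real.exp (2 * ∫ s in r..t, Λ s)) :
    ∀ t0 < τ, ∃ t ∈ Ioo t0 τ, r < t ∧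
      3 / 4 * Real.log (1 / (τ - t)) - Real.log (K / κ ^ 2) / 2 ≤ ∫ s in r..t, Λ s := by
  intro t0 ht0
  by_contra hcon
  push Not at hcon
  refine hrate (max t0 r) (max_lt ht0 hr) ?_
  have hss : Ioo (max t0 r) τ ⊆ Ioo r τ := Ioo_subset_Ioo_left (le_max_right _ _)
  filter_upwards [ae_mono (Measure.restrict_mono hss le_rfl) hb,
    ae_restrict_mem measurableSet_Ioo] with t h1 h2
  have hp : 0 < τ - t := by linarith [h2.2]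
  have h3 := hcon t ⟨(le_max_left _ _).trans_lt h2.1, h2.2⟩ ((le_max_right _ _).trans_lt h2.1)
  have hpow : 0 < (τ - t) ^ (-(3 / 4) : ℝ) := Real.rpow_pos_of_pos hp _
  have hKκ : 0 < K / κ ^ 2 := by positivity
  have h5 : 2 * ∫ s in r..t, Λ s ≤ 3 / 2 * Real.log (1 / (τ - t)) - Real.log (K / κ ^ 2) := by
    linarith
  have e1 : Real.exp (3 / 2 * Real.log (1 / (τ - t))) = ((τ - t) ^ (-(3 / 4) : ℝ)) ^ 2 := by
    rw [one_div, Real.log_inv, ← Real.rpow_natCast ((τ - t) ^ (-(3 / 4) : ℝ)) 2,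
      ← Real.rpow_mul hp.le, Real.rpow_def_of_pos hp]
    congr 1
    push_cast
    ring
  have h6 : K * Real.exp (3 / 2 * Real.log (1 / (τ - t)) - Real.log (K / κ ^ 2))
      = (κ * (τ - t) ^ (-(3 / 4) : ℝ)) ^ 2 := by
    rw [Real.exp_sub, Real.exp_log hKκ, e1]
    field_simp
  have h7 : ‖v1 t‖ ^ 2 ≤ (κ * (τ - t) ^ (-(3 / 4) : ℝ)) ^ 2 := by
    rw [← h6]
    refine h1.trans ?_
    gcongr
  exact (pow_le_pow_iff_left₀ (norm_nonneg _) (by positivity) (by norm_num)).mp h7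

/-- from the rate to the lower bound with a power -/
theorem pow_low {E : Type} [NormedAddCommGroup E] {v1 : ℝ → E} {τ r κ K ν : ℝ} {Λ : ℝ → ℝ}
    (hκ : 0 < κ) (hν : 0 < ν) (hr : r < τ)
    (hrate : ∀ t0 < τ, ¬ ∀ᵐ t ∂(volume.restrict (Ioo t0 τ)),
      ‖v1 t‖ ≤ κ * (τ - t) ^ (-(3 / 4) : ℝ))
    (hb : ∀ᵐ t ∂(volume.restrict (Ioo r τ)), ‖v1 t‖ ^ 2 ≤ K + (∫ s in r..t, Λ s) / ν) :
    ∀ t0 < τ, ∃ t ∈ Ioo t0 τ, r < t ∧
      ν * κ ^ 2 * (τ - t) ^ (-(3 / 2) : ℝ) - ν * K ≤ ∫ s in r..t, Λ s := by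
  intro t0 ht0
  by_contra hcon
  push Not at hcon
  refine hrate (max t0 r) (max_lt ht0 hr) ?_
  have hss : Ioo (max t0 r) τ ⊆ Ioo r τ := Ioo_subset_Ioo_left (le_max_right _ _)
  filter_upwards [ae_mono (Measure.restrict_mono hss le_rfl) hb,
    ae_restrict_mem measurableSet_Ioo] with t h1 h2
  have hp : 0 < τ - t := by linarith [h2.2]
  have h3 := hcon t ⟨(le_max_left _ _).trans_lt h2.1, h2.2⟩ ((le_max_right _ _).trans_lt h2.1)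
  have hpow : 0 < (τ - t) ^ (-(3 / 4) : ℝ) := Real.rpow_pos_of_pos hp _
  have e1 : (τ - t) ^ (-(3 / 2) : ℝ) = ((τ - t) ^ (-(3 / 4) : ℝ)) ^ 2 := by
    rw [← Real.rpow_natCast ((τ - t) ^ (-(3 / 4) : ℝ)) 2, ← Real.rpow_mul hp.le]
    norm_num
  have h7 : ‖v1 t‖ ^ 2 ≤ (κ * (τ - t) ^ (-(3 / 4) : ℝ)) ^ 2 := by
    rw [mul_pow, ← e1]
    refine h1.trans ?_
    have h8 : (∫ s in r..t, Λ s) / ν ≤ (ν * κ ^ 2 * (τ - t) ^ (-(3 / 2) : ℝ) - ν * K) / ν := by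
      gcongr
    have h9 : (ν * κ ^ 2 * (τ - t) ^ (-(3 / 2) : ℝ) - ν * K) / ν
        = κ ^ 2 * (τ - t) ^ (-(3 / 2) : ℝ) - K := by
      field_simp
    linarith
  exact (pow_le_pow_iff_left₀ (norm_nonneg _) (by positivity) (by norm_num)).mp h7

section abs

variable {H K : Type} [NormedAddCommGroup H] [InnerProductSpace ℝ H] [CompleteSpace H]
  [NormedAddCommGroup K] [InnerProductSpace ℝ K] [CompleteSpace K]
  {W : Submodule ℝ (H × K)} {m : H → K} {C ν T τ κ : ℝ} {F F1 : ℝ → K} {v v1 : ℝ → H}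
  {z z1 : ℝ → K}

theorem low_Λ (Fr : Frame W m C) (hm : Hom W m) (hν : 0 < ν) (hτT : τ ≤ T)
    (hF : FH T F F1) (hS : ∀ t ∈ Ioo 0 τ, Str W m ν t F v v1 z z1) (hκ : 0 < κ)
    (hrate : ∀ t0 < τ, ¬ ∀ᵐ t ∂(volume.restrict (Ioo t0 τ)),
      ‖v1 t‖ ≤ κ * (τ - t) ^ (-(3 / 4) : ℝ)) {s : ℝ} (hs : s ∈ Ico 0 τ) {δ : ℝ} (hδ : 0 < δ) :
    ∃ M : ℝ, ∀ Λ : ℝ → ℝ, (∀ t, 0 ≤ Λ t) → (∀ t ∈ Ioo s τ, IntegrableOn Λ (Ioc s t)) →
      (∀ᵐ t ∂(volume.restrict (Ioo s τ)),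
        -⟪m (v1 t), z t⟫_ℝ ≤ (1 - δ) * ν * ‖z1 t‖ ^ 2 + Λ t * ‖v1 t‖ ^ 2) →
      ∀ t0 < τ, ∃ t ∈ Ioo t0 τ, s < t ∧
        3 / 4 * Real.log (1 / (τ - t)) - M ≤ ∫ r in s..t, Λ r := by
  obtain ⟨r, hr, dr⟩ := exists_diff (hs.1.trans_lt hs.2) hS hs
  have hr0 : r ∈ Ioo 0 τ := ⟨hs.1.trans_lt hr.1, hr.2⟩
  have hT : 0 ≤ T := (hr0.1.trans hr0.2).le.trans hτT
  have hA : 0 ≤ ∫ s in (0 : ℝ)..T, ‖F1 s‖ ^ 2 :=
    intervalIntegral.integral_nonneg hT fun x _ => by positivity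
  set K0 : ℝ := ‖v1 r‖ ^ 2 + (∫ s in (0 : ℝ)..T, ‖F1 s‖ ^ 2) / (2 * δ * ν) with hK0
  have hK00 : 0 ≤ K0 := by positivity
  refine ⟨Real.log ((K0 + 1) / κ ^ 2) / 2, ?_⟩
  intro Λ hΛ0 hΛi hΛ t0 ht0
  have hss : Ioo r τ ⊆ Ioo s τ := Ioo_subset_Ioo_left hr.1.le
  have h1 := bound_Λ Fr hm hν hτT hF hS hr0 dr hδ hΛ0
    (fun t ht => (hΛi t ⟨hr.1.trans ht.1, ht.2⟩).mono_set (Ioc_subset_Ioc_left hr.1.le))
    (ae_mono (Measure.restrict_mono hss le_rfl) hΛ)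
  have h2 : ∀ᵐ t ∂(volume.restrict (Ioo r τ)),
      ‖v1 t‖ ^ 2 ≤ (K0 + 1) * Real.exp (2 * ∫ s in r..t, Λ s) := by
    filter_upwards [h1] with t ht
    exact ht.trans (mul_le_mul_of_nonneg_right (by linarith) (Real.exp_pos _).le)
  obtain ⟨t, ht, hrt, hlog⟩ := log_low hκ (by positivity : 0 < K0 + 1) hr.2 hrate h2 t0 ht0
  refine ⟨t, ht, hr.1.trans hrt, hlog.trans ?_⟩
  rw [intervalIntegral.integral_of_le hrt.le, intervalIntegral.integral_of_le (hr.1.trans hrt).le]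
  exact setIntegral_mono_set (hΛi t ⟨hr.1.trans hrt, ht.2⟩) (Eventually.of_forall hΛ0)
    (Ioc_subset_Ioc_left hr.1.le).eventuallyLE

theorem low_X (Fr : Frame W m C) (hm : Hom W m) (hν : 0 < ν) (hτT : τ ≤ T)
    (hF : FH T F F1) (hS : ∀ t ∈ Ioo 0 τ, Str W m ν t F v v1 z z1) (hκ : 0 < κ)
    (hrate : ∀ t0 < τ, ¬ ∀ᵐ t ∂(volume.restrict (Ioo t0 τ)),
      ‖v1 t‖ ≤ κ * (τ - t) ^ (-(3 / 4) : ℝ)) {s : ℝ} (hs : s ∈ Ico 0 τ) {X : ℝ → ℝ}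
    (hX0 : ∀ t, 0 ≤ X t) (hXi : ∀ t ∈ Ioo s τ, IntegrableOn X (Ioc s t))
    (hX : ∀ᵐ t ∂(volume.restrict (Ioo s τ)), -⟪m (v1 t), z t⟫_ℝ ≤ ‖z1 t‖ * √(X t)) :
    ∃ M : ℝ, ∀ t0 < τ, ∃ t ∈ Ioo t0 τ, s < t ∧
        ν * κ ^ 2 * (τ - t) ^ (-(3 / 2) : ℝ) - M ≤ ∫ r in s..t, X r := by
  obtain ⟨r, hr, dr⟩ := exists_diff (hs.1.trans_lt hs.2) hS hs
  have hr0 : r ∈ Ioo 0 τ := ⟨hs.1.trans_lt hr.1, hr.2⟩
  have hsq : (fun t => √(X t) ^ 2) = X := by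
    funext t
    exact Real.sq_sqrt (hX0 t)
  set K0 : ℝ := ‖v1 r‖ ^ 2 + (∫ s in (0 : ℝ)..T, ‖F1 s‖ ^ 2) / ν with hK0
  refine ⟨ν * K0, ?_⟩
  intro t0 ht0
  have hss : Ioo r τ ⊆ Ioo s τ := Ioo_subset_Ioo_left hr.1.le
  have h1 := bound_X Fr hm hν hτT hF hS hr0 dr (X := fun t => √(X t))
    (fun t ht => by
      rw [hsq]
      exact (hXi t ⟨hr.1.trans ht.1, ht.2⟩).mono_set (Ioc_subset_Ioc_left hr.1.le))
    (ae_mono (Measure.restrict_mono hss le_rfl) hX)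
  have h2 : ∀ᵐ t ∂(volume.restrict (Ioo r τ)), ‖v1 t‖ ^ 2 ≤ K0 + (∫ s in r..t, X s) / ν := by
    filter_upwards [h1] with t ht
    have e : ∀ x, √(X x) ^ 2 = X x := fun x => Real.sq_sqrt (hX0 x)
    simp only [e] at ht
    exact ht
  obtain ⟨t, ht, hrt, hlog⟩ := pow_low hκ hν hr.2 hrate h2 t0 ht0
  refine ⟨t, ht, hr.1.trans hrt, hlog.trans ?_⟩
  rw [intervalIntegral.integral_of_le hrt.le, intervalIntegral.integral_of_le (hr.1.trans hrt).le]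
  exact setIntegral_mono_set (hXi t ⟨hr.1.trans hrt, ht.2⟩) (Eventually.of_forall hX0)
    (Ioc_subset_Ioc_left hr.1.le).eventuallyLE

end abs

/-- weighted inequality between the means -/
theorem young_mix {b g h ν θ : ℝ} (hb : 0 ≤ b) (hg : 0 ≤ g) (hh : 0 ≤ h) (hν : 0 < ν)
    (hθ0 : 0 ≤ θ) (hθ1 : θ < 1) :
    b * (g ^ (1 + θ) * h ^ (1 - θ)) ≤ ν / 2 * g ^ 2
      + b ^ (2 / (1 - θ)) * (2 / ν) ^ (2 / (1 - θ) - 1) * h ^ 2 := by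
  set Λ : ℝ := b ^ (2 / (1 - θ)) * (2 / ν) ^ (2 / (1 - θ) - 1) with hΛ
  have hΛ0 : 0 ≤ Λ := by positivity
  have h1θ : 0 < 1 - θ := by linarith
  have key := Real.geom_mean_le_arith_mean2_weighted (w₁ := (1 + θ) / 2) (w₂ := (1 - θ) / 2)
    (p₁ := ν / 2 * g ^ 2) (p₂ := Λ * h ^ 2) (by positivity) (by positivity) (by positivity)
    (by positivity) (by ring)
  have e1 : (ν / 2 * g ^ 2) ^ ((1 + θ) / 2) = (ν / 2) ^ ((1 + θ) / 2) * g ^ (1 + θ) := by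
    rw [Real.mul_rpow (by positivity) (by positivity), ← Real.rpow_natCast g 2,
      ← Real.rpow_mul hg]
    congr 2
    push_cast
    ring
  have e2 : (Λ * h ^ 2) ^ ((1 - θ) / 2) = b * (2 / ν) ^ ((1 + θ) / 2) * h ^ (1 - θ) := by
    rw [Real.mul_rpow hΛ0 (by positivity), hΛ, Real.mul_rpow (by positivity) (by positivity),
      ← Real.rpow_mul hb, ← Real.rpow_mul (by positivity), ← Real.rpow_natCast h 2,
      ← Real.rpow_mul hh]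
    have k1 : 2 / (1 - θ) * ((1 - θ) / 2) = 1 := by field_simp
    have k2 : (2 / (1 - θ) - 1) * ((1 - θ) / 2) = (1 + θ) / 2 := by
      field_simp
      ring
    have k3 : ((2 : ℕ) : ℝ) * ((1 - θ) / 2) = 1 - θ := by push_cast; ring
    rw [k1, k2, k3, Real.rpow_one]
  have e3 : (ν / 2) ^ ((1 + θ) / 2) * (2 / ν) ^ ((1 + θ) / 2) = 1 := by
    rw [← Real.mul_rpow (by positivity) (by positivity)]
    have : ν / 2 * (2 / ν) = 1 := by field_simp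
    rw [this, Real.one_rpow]
  rw [e1, e2] at key
  have e4 : (ν / 2) ^ ((1 + θ) / 2) * g ^ (1 + θ) * (b * (2 / ν) ^ ((1 + θ) / 2) * h ^ (1 - θ))
      = b * (g ^ (1 + θ) * h ^ (1 - θ)) := by
    calc _ = ((ν / 2) ^ ((1 + θ) / 2) * (2 / ν) ^ ((1 + θ) / 2))
          * (b * (g ^ (1 + θ) * h ^ (1 - θ))) := by ring
      _ = _ := by rw [e3, one_mul]
  rw [e4] at key
  have h3 : (1 + θ) / 2 * (ν / 2 * g ^ 2) ≤ 1 * (ν / 2 * g ^ 2) := by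
    gcongr
    linarith
  have h4 : (1 - θ) / 2 * (Λ * h ^ 2) ≤ 1 * (Λ * h ^ 2) := by
    gcongr
    linarith
  linarith

end Pool.Agent.V1183.RA
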